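import Mathlib

/-!
# Strong o-conjugacy is not transitive, even in regular semigroups

The semigroup is the full transformation monoid of a countable set `X`. A transformation of `X`
makes `X` a mono-unary algebra, and two transformations are strongly o-conjugate if and only if
the two algebras have isomorphic retracts. Two algebras are constructed which are both retracts of
a third one, but which have no isomorphic retracts.
-/

set_option autoImplicit false

namespace Pool.Agent.Results.MP_d6d41b_al.NotTransitive

universe u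

/-- `S` has an identity element. -/
def HasIdentity (S : Type u) [Semigroup S] : Prop :=
  ∃ e : S, ∀ x : S, e * x = x ∧ x * e = x

/-- The monoid `S¹` is realised inside `WithOne S` (in which an identity is adjoined in all cases):
it consists of all elements if `S` has no identity, and of the elements of `S` if `S` has an
identity. -/
def InS1 {S : Type u} [Semigroup S] (g : WithOne S) : Prop :=
  HasIdentity S → ∃ g' : S, g = (g' : WithOne S)

/-- `a` and `b` are strongly o-conjugate: there are mutually inverse `g, h` in `S¹` with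
`a g = g b` and `b h = h a`. -/
def SOConj {S : Type u} [Semigroup S] (a b : S) : Prop :=
  ∃ g h : WithOne S, InS1 g ∧ InS1 h ∧ g * h * g = g ∧ h * g * h = h ∧
    (a : WithOne S) * g = g * (b : WithOne S) ∧ (b : WithOne S) * h = h * (a : WithOne S)

/-- The semigroup `S` is regular. -/
def IsRegularSemigroup (S : Type u) [Semigroup S] : Prop := ∀ x : S, ∃ y : S, x * y * x = x

/-- The basic unary algebra on `ℕ × ℕ`: the elements `(m, 0)` form a ray, and at `(m, 0)` a path
of length `2 * m + r` is attached. -/
def st (r : ℕ) (x : ℕ × ℕ) : ℕ × ℕ :=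
  if x.2 = 0 then (x.1 + 1, 0) else if x.2 ≤ 2 * x.1 + r then (x.1, x.2 - 1) else (x.1 + 1, 0)

theorem st_zero (r m : ℕ) : st r (m, 0) = (m + 1, 0) := by simp [st]

theorem st_succ {r m i : ℕ} (h : i + 1 ≤ 2 * m + r) : st r (m, i + 1) = (m, i) := by
  simp [st, h]

theorem st_big {r m i : ℕ} (h : ¬ i ≤ 2 * m + r) : st r (m, i) = (m + 1, 0) := by
  have : i ≠ 0 := by omega
  simp [st, h, this]

theorem iter_path {r m : ℕ} : ∀ {i : ℕ}, i ≤ 2 * m + r → (st r)^[i] (m, i) = (m, 0)
  | 0, _ => rfl
  | i + 1, h => by
    rw [Function.iterate_succ_apply, st_succ h]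
    exact iter_path (by omega)

theorem iter_ray (r m j : ℕ) : (st r)^[j] (m, 0) = (m + j, 0) := by
  induction j generalizing m with
  | zero => rfl
  | succ j ih =>
    rw [Function.iterate_succ_apply, st_zero, ih]
    congr 1
    omega

theorem exists_ray (r : ℕ) (x : ℕ × ℕ) : ∃ k m : ℕ, ∀ j, (st r)^[k + j] x = (m + j, 0) := by
  obtain ⟨k, m, h⟩ : ∃ k m : ℕ, (st r)^[k] x = (m, 0) := by
    obtain ⟨m, i⟩ := x
    by_cases h : i ≤ 2 * m + r
    · exact ⟨i, m, iter_path h⟩
    · exact ⟨1, m + 1, by rw [Function.iterate_one, st_big h]⟩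
  refine ⟨k, m, fun j => ?_⟩
  rw [add_comm, Function.iterate_add_apply, h, iter_ray]

theorem depth (r : ℕ) (x : ℕ × ℕ) (n : ℕ) :
    (((st r)^[n] x).2 ≤ 2 * ((st r)^[n] x).1 + r →
      n + ((st r)^[n] x).2 ≤ 2 * ((st r)^[n] x).1 + r) ∧
    (¬ ((st r)^[n] x).2 ≤ 2 * ((st r)^[n] x).1 + r → n = 0) := by
  induction n with
  | zero => simp
  | succ n ih =>
    rw [Function.iterate_succ_apply']
    obtain ⟨ih1, ih2⟩ := ih
    generalize (st r)^[n] x = y at ih1 ih2
    obtain ⟨m, j⟩ := y
    simp only at ih1 ih2
    by_cases hj : j ≤ 2 * m + r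
    · cases j with
      | zero =>
        rw [st_zero]
        have := ih1 hj
        simp only
        omega
      | succ j =>
        rw [st_succ hj]
        have := ih1 hj
        simp only
        omega
    · rw [st_big hj]
      have := ih2 hj
      simp only
      omega

theorem mem_range_iff (r m n : ℕ) :
    (∃ x, (st r)^[n] x = (m, 0)) ↔ n ≤ 2 * m + r := by
  constructor
  · rintro ⟨x, hx⟩
    have := (depth r x n).1
    rw [hx] at this
    simpa using this
  · intro h
    refine ⟨((st r)^[2 * m + r - n] (m, 2 * m + r)), ?_⟩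
    rw [← Function.iterate_add_apply, Nat.add_sub_cancel' h]
    exact iter_path le_rfl

/-- a homomorphism from the algebra with `r = 1` to the one with `r = 0` -/
def phi (x : ℕ × ℕ) : ℕ × ℕ := if x.2 ≤ 2 * x.1 + 1 then (x.1 + 1, x.2) else (x.1 + 1, 0)

/-- a homomorphism from the algebra with `r = 0` to the one with `r = 1` -/
def psi (x : ℕ × ℕ) : ℕ × ℕ := if x.2 ≤ 2 * x.1 + 0 then (x.1, x.2) else (x.1, 0)

theorem phi_st (x : ℕ × ℕ) : phi (st 1 x) = st 0 (phi x) := by
  obtain ⟨m, i⟩ := x
  by_cases h : i ≤ 2 * m + 1
  · have h1 : phi (m, i) = (m + 1, i) := by simp [phi, h]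
    rw [h1]
    cases i with
    | zero => rw [st_zero, st_zero]; simp [phi]
    | succ i =>
      rw [st_succ h, st_succ (by omega)]
      have : i ≤ 2 * m + 1 := by omega
      simp [phi, this]
  · have h1 : phi (m, i) = (m + 1, 0) := by simp [phi, h]
    rw [h1, st_big h, st_zero]
    simp [phi]

theorem psi_st (x : ℕ × ℕ) : psi (st 0 x) = st 1 (psi x) := by
  obtain ⟨m, i⟩ := x
  by_cases h : i ≤ 2 * m + 0
  · have h1 : psi (m, i) = (m, i) := by simp only [psi, h, if_true]
    rw [h1]
    cases i with
    | zero => rw [st_zero, st_zero]; simp [psi]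
    | succ i =>
      rw [st_succ h, st_succ (by omega)]
      have : i ≤ 2 * m + 0 := by omega
      simp only [psi, this, if_true]
  · have h1 : psi (m, i) = (m, 0) := by simp only [psi, h, if_false]
    rw [h1, st_big h, st_zero]
    simp [psi]

/-- the underlying set: two copies of `ℕ × ℕ` -/
abbrev X : Type := Bool × (ℕ × ℕ)

/-- the transformation with both copies of type `r = 0` -/
def a : X → X := fun x => (x.1, st 0 x.2)

/-- the transformation with one copy of each type -/
def b : X → X := fun x => (x.1, if x.1 then st 1 x.2 else st 0 x.2)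

/-- the transformation with both copies of type `r = 1` -/
def c : X → X := fun x => (x.1, st 1 x.2)

theorem a_iter (n : ℕ) (x : X) : a^[n] x = (x.1, (st 0)^[n] x.2) := by
  induction n generalizing x with
  | zero => rfl
  | succ n ih => rw [Function.iterate_succ_apply, ih, Function.iterate_succ_apply]; rfl

theorem c_iter (n : ℕ) (x : X) : c^[n] x = (x.1, (st 1)^[n] x.2) := by
  induction n generalizing x with
  | zero => rfl
  | succ n ih => rw [Function.iterate_succ_apply, ih, Function.iterate_succ_apply]; rfl

theorem not_conj (g h : X → X) (hgh : ∀ x, g (h (g x)) = g x) (hg : ∀ x, a (g x) = g (c x))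
    (hh : ∀ x, c (h x) = h (a x)) : False := by
  have hgn : ∀ (n : ℕ) (x : X), a^[n] (g x) = g (c^[n] x) := by
    intro n
    induction n with
    | zero => intro x; rfl
    | succ n ih => intro x; rw [Function.iterate_succ_apply, hg, ih, Function.iterate_succ_apply]
  have hhn : ∀ (n : ℕ) (x : X), c^[n] (h x) = h (a^[n] x) := by
    intro n
    induction n with
    | zero => intro x; rfl
    | succ n ih => intro x; rw [Function.iterate_succ_apply, hh, ih, Function.iterate_succ_apply]
  -- a point `t` in the image of `g`
  let t : X := g (true, (0, 0))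
  let s : X := h t
  obtain ⟨k, m, hk⟩ := exists_ray 0 t.2
  obtain ⟨k', m', hk'⟩ := exists_ray 1 s.2
  -- far along the two rays
  let T : X := (t.1, (m + k', 0))
  let U : X := (s.1, (m' + k, 0))
  have hT : a^[k + k'] t = T := by rw [a_iter, hk]
  have hU : c^[k + k'] s = U := by rw [c_iter, add_comm, hk']
  have hTU : h T = U := by rw [← hT, ← hhn, hU]
  have hUT : g U = T := by
    rw [← hU, ← hgn, ← hT]
    congr 1
    exact hgh _
  have key : ∀ n, n ≤ 2 * (m + k') + 0 ↔ n ≤ 2 * (m' + k) + 1 := by
    intro n
    rw [← mem_range_iff, ← mem_range_iff]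
    constructor
    · rintro ⟨x, hx⟩
      refine ⟨(h (t.1, x)).2, ?_⟩
      have : c^[n] (h (t.1, x)) = U := by rw [hhn, a_iter, hx, ← hTU]
      rw [c_iter] at this
      exact congrArg Prod.snd this
    · rintro ⟨x, hx⟩
      refine ⟨(g (s.1, x)).2, ?_⟩
      have : a^[n] (g (s.1, x)) = T := by rw [hgn, c_iter, hx, ← hUT]
      rw [a_iter] at this
      exact congrArg Prod.snd this
  have h5 := key (2 * (m + k'))
  have h6 := key (2 * (m' + k) + 1)
  omega

/-- `a` as an element of the full transformation monoid -/
def ea : Function.End X := a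

/-- `b` as an element of the full transformation monoid -/
def eb : Function.End X := b

/-- `c` as an element of the full transformation monoid -/
def ec : Function.End X := c

theorem soConj_of_end {p q g h : Function.End X} (h1 : g * h * g = g) (h2 : h * g * h = h)
    (h3 : p * g = g * q) (h4 : q * h = h * p) : SOConj p q := by
  refine ⟨(g : WithOne (Function.End X)), (h : WithOne (Function.End X)), fun _ => ⟨g, rfl⟩,
    fun _ => ⟨h, rfl⟩, ?_, ?_, ?_, ?_⟩
  · rw [← WithOne.coe_mul, ← WithOne.coe_mul, h1]
  · rw [← WithOne.coe_mul, ← WithOne.coe_mul, h2]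
  · rw [← WithOne.coe_mul, ← WithOne.coe_mul, h3]
  · rw [← WithOne.coe_mul, ← WithOne.coe_mul, h4]

/-- There are a regular semigroup `S` and elements `a, b, c` of `S` such that `a, b` are strongly
o-conjugate and `b, c` are strongly o-conjugate, but `a, c` are not. -/
theorem result : ∃ (S : Type) (_ : Semigroup S), IsRegularSemigroup S ∧
    ∃ a b c : S, SOConj a b ∧ SOConj b c ∧ ¬ SOConj a c := by
  refine ⟨Function.End X, inferInstance, ?_, ea, eb, ec, ?_, ?_, ?_⟩
  · intro x
    refine ⟨(Function.invFun x : X → X), ?_⟩
    funext t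
    show x (Function.invFun x (x t)) = x t
    exact Function.invFun_eq ⟨t, rfl⟩
  · refine soConj_of_end (g := fun x => (false, if x.1 then phi x.2 else x.2))
      (h := fun x => (false, x.2)) ?_ ?_ ?_ ?_
    · funext x; rfl
    · funext x; rfl
    · funext x
      obtain ⟨s, v⟩ := x
      cases s
      · rfl
      · show ((false, st 0 (phi v)) : X) = (false, phi (st 1 v))
        rw [phi_st]
    · funext x; rfl
  · refine soConj_of_end (g := fun x => (true, x.2))
      (h := fun x => (true, if x.1 then x.2 else psi x.2)) ?_ ?_ ?_ ?_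
    · funext x; rfl
    · funext x; rfl
    · funext x; rfl
    · funext x
      obtain ⟨s, v⟩ := x
      cases s
      · show ((true, st 1 (psi v)) : X) = (true, psi (st 0 v))
        rw [psi_st]
      · rfl
  · rintro ⟨g, h, hg, hh, h1, h2, h3, h4⟩
    have hid : HasIdentity (Function.End X) := ⟨1, fun x => ⟨one_mul x, mul_one x⟩⟩
    obtain ⟨g, rfl⟩ := hg hid
    obtain ⟨h, rfl⟩ := hh hid
    have h1' : (g : Function.End X) * h * g = g := WithOne.coe_injective h1
    have h3' : ea * g = g * ec := WithOne.coe_injective h3
    have h4' : ec * h = h * ea := WithOne.coe_injective h4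
    exact not_conj g h (fun x => congrFun h1' x) (fun x => congrFun h3' x)
      (fun x => congrFun h4' x)

end Pool.Agent.Results.MP_d6d41b_al.NotTransitive
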